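import Pool.Agent.H46.CH.DX

/-!
# More colours
-/

set_option autoImplicit false

namespace Pool.Agent.H36.CHD

open Classical Pool.Agent.H46.CH
open Pool.Agent.H8.VR Pool.Agent.H69.VR

theorem nmk_lift {k k' : ℕ} (h : k ≤ k') (f : Fin k → Fin k) : ∃ f' : Fin k' → Fin k',
    ∀ p, f' (Fin.castLE h p) = Fin.castLE h (f p) := by
  refine ⟨fun p => if h' : ∃ p0, Fin.castLE h p0 = p then Fin.castLE h (f h'.choose) else p,
    fun p => ?_⟩
  have h' : ∃ p0, Fin.castLE h p0 = Fin.castLE h p := ⟨p, rfl⟩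
  have h1 : h'.choose = p := Fin.castLE_injective h h'.choose_spec
  show (if h' : ∃ p0, Fin.castLE h p0 = Fin.castLE h p then Fin.castLE h (f h'.choose)
    else Fin.castLE h p) = _
  rw [dif_pos h', h1]

theorem nmk_iff {k k' : ℕ} (h : k ≤ k') (l : Fin k → Fin k → Prop) (p q : Fin k) :
    l p q ↔ ∃ p0 q0, Fin.castLE h p0 = Fin.castLE h p ∧ Fin.castLE h q0 = Fin.castLE h q ∧
      l p0 q0 := by
  constructor
  · intro h1
    exact ⟨p, q, rfl, rfl, h1⟩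
  · rintro ⟨p0, q0, h1, h2, h3⟩
    rwa [Fin.castLE_injective h h1, Fin.castLE_injective h h2] at h3

theorem nmk_iff1 {k k' : ℕ} (h : k ≤ k') (l : Fin k → Prop) (p : Fin k) :
    l p ↔ ∃ p0, Fin.castLE h p0 = Fin.castLE h p ∧ l p0 := by
  constructor
  · intro h1
    exact ⟨p, rfl, h1⟩
  · rintro ⟨p0, h1, h3⟩
    rwa [Fin.castLE_injective h h1] at h3

theorem nmk_nlc {k k' m : ℕ} (h : k ≤ k') {A : Type} {R : ℕ → A → A → Prop} {X : Set A}
    {c : A → Fin k} (hX : NLC k m R X c) : NLC k' m R X (fun a => Fin.castLE h (c a)) := by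
  induction hX with
  | pt a c => exact NLC.pt a _
  | op X Y c c₁ c₂ h₁ h₂ hd l r f g hR hX hY ih₁ ih₂ =>
    obtain ⟨f', hf'⟩ := nmk_lift h f
    obtain ⟨g', hg'⟩ := nmk_lift h g
    refine NLC.op X Y _ _ _ ih₁ ih₂ hd
      (fun i p q => ∃ p0 q0, Fin.castLE h p0 = p ∧ Fin.castLE h q0 = q ∧ l i p0 q0)
      (fun i p q => ∃ p0 q0, Fin.castLE h p0 = p ∧ Fin.castLE h q0 = q ∧ r i p0 q0) f' g'
      ?_ ?_ ?_
    · intro a ha b hb i hi
      obtain ⟨h3, h4⟩ := hR a ha b hb i hi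
      exact ⟨h3.trans (nmk_iff h (l i) _ _), h4.trans (nmk_iff h (r i) _ _)⟩
    · intro a ha
      show Fin.castLE h (c a) = f' (Fin.castLE h (c₁ a))
      rw [hf', hX a ha]
    · intro b hb
      show Fin.castLE h (c b) = g' (Fin.castLE h (c₂ b))
      rw [hg', hY b hb]

theorem nmk_lnlc {k k' m : ℕ} (h : k ≤ k') {A : Type} {R : ℕ → A → A → Prop} {X : Set A}
    {c : A → Fin k} (hX : LNLC k m R X c) : LNLC k' m R X (fun a => Fin.castLE h (c a)) := by
  induction hX with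
  | pt a c => exact LNLC.pt a _
  | op X b c c₁ h₁ hb l r f hR hX ih₁ =>
    obtain ⟨f', hf'⟩ := nmk_lift h f
    refine LNLC.op X b _ _ ih₁ hb
      (fun i p => ∃ p0, Fin.castLE h p0 = p ∧ l i p0)
      (fun i p => ∃ p0, Fin.castLE h p0 = p ∧ r i p0) f' ?_ ?_
    · intro a ha i hi
      obtain ⟨h3, h4⟩ := hR a ha i hi
      exact ⟨h3.trans (nmk_iff1 h (l i) _), h4.trans (nmk_iff1 h (r i) _)⟩
    · intro a ha
      show Fin.castLE h (c a) = f' (Fin.castLE h (c₁ a))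
      rw [hf', hX a ha]

theorem pf_NMK : Pool.Agent.H46.CH.T_NMK := by
  constructor
  · rintro k k' m h A R ⟨c, hc⟩
    exact ⟨_, nmk_nlc h hc⟩
  · rintro k k' m h A R ⟨c, hc⟩
    exact ⟨_, nmk_lnlc h hc⟩

end Pool.Agent.H36.CHD
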