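import Pool.Agent.H46.CH.DX

/-!
# Blow-ups of paths without numbers
-/

set_option autoImplicit false

namespace Pool.Agent.H36.CHD

open Classical Pool.Agent.H46.CH
open Pool.Agent.H8.VR Pool.Agent.H69.VR

theorem pda_par {A : Type} {R : A → A → Prop} {T : ℕ} {b : A → ℕ} {p : ℕ → ℕ}
    (hb : ∀ i, (∃ x, b x = i) ↔ i ≤ T) (hp : ∀ i, 0 < i → p i < i)
    (hR : ∀ x y, (R x y ↔ b y = b x ∨ (0 < b y ∧ p (b y) = b x))) (hU : UCh R) :
    ∀ i, 0 < i → i ≤ T → p i = i - 1 := by
  intro i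
  induction i using Nat.strong_induction_on with
  | _ i ih =>
    intro h0 hT
    by_contra hne
    have h1 := hp i h0
    have h2 := ih (p i + 1) (by omega) (by omega) (by omega)
    obtain ⟨x, hx⟩ := (hb (p i)).2 (by omega)
    obtain ⟨y, hy⟩ := (hb i).2 hT
    obtain ⟨z, hz⟩ := (hb (p i + 1)).2 (by omega)
    have hxy : R x y := (hR x y).2 (Or.inr ⟨by omega, by rw [hy, hx]⟩)
    have hxz : R x z := (hR x z).2 (Or.inr ⟨by omega, by rw [hz, hx, h2]; omega⟩)
    have hyx : ¬ R y x := by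
      intro h
      rcases (hR y x).1 h with h3 | ⟨h3, h4⟩
      · omega
      · have := hp (b x) h3
        omega
    have hzx : ¬ R z x := by
      intro h
      rcases (hR z x).1 h with h3 | ⟨h3, h4⟩
      · omega
      · have := hp (b x) h3
        omega
    obtain ⟨h5, -⟩ := hU x y z hxy hyx hxz hzx
    rcases (hR y z).1 h5 with h3 | ⟨h3, h4⟩
    · omega
    · have := hp (b z) h3
      omega

theorem pf_PDA (hTDA : T_TDA) : Pool.Agent.H46.CH.T_PDA := by
  intro A _ _ R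
  rw [← hTDA A R]
  constructor
  · rintro ⟨T, b, hb, hR⟩
    refine ⟨⟨T, b, fun i => i - 1, hb, fun i hi => by show i - 1 < i; omega, fun x y => ?_⟩, ?_⟩
    · rw [hR x y]
      show _ ↔ b y = b x ∨ (0 < b y ∧ b y - 1 = b x)
      omega
    · intro x y z h1 h2 h3 h4
      rw [hR] at h1 h2 h3 h4
      rw [hR, hR]
      omega
  · rintro ⟨⟨T, b, p, hb, hp, hR⟩, hU⟩
    have h := pda_par hb hp hR hU
    refine ⟨T, b, hb, fun x y => ?_⟩
    rw [hR x y]
    have hy : b y ≤ T := (hb (b y)).1 ⟨y, rfl⟩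
    rcases Nat.eq_zero_or_pos (b y) with h0 | h0
    · omega
    · rw [h (b y) h0 hy]
      omega

end Pool.Agent.H36.CHD
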