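import Pool.Agent.H46.CH.DX

/-!
# Blow-ups of trees and paths are definable
-/

set_option autoImplicit false

namespace Pool.Agent.H36.CHD

open Classical Pool.Agent.H46.CH
open Pool.Agent.H8.VR Pool.Agent.H69.VR

/-- implication -/
def im (φ ψ : MS) : MS := .neg (.and φ (.neg ψ))

theorem im_sat {A : Type} (P : ℕ → A → Prop) (R : ℕ → A → A → Prop) (φ ψ : MS) (e : ℕ → A)
    (V : ℕ → Set A) : (im φ ψ).Sat P R e V ↔ (φ.Sat P R e V → ψ.Sat P R e V) := by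
  show ¬ (_ ∧ ¬ _) ↔ _
  tauto

/-- the second clause -/
def c2 : MS := im (.bi 0 0 1) (im (.bi 0 1 0)
  (.and (.and (im (.bi 0 0 2) (.bi 0 1 2)) (im (.bi 0 1 2) (.bi 0 0 2)))
    (.and (im (.bi 0 2 0) (.bi 0 2 1)) (im (.bi 0 2 1) (.bi 0 2 0)))))

/-- the third clause -/
def c3 : MS := im (.bi 0 0 2) (im (.neg (.bi 0 2 0)) (im (.bi 0 1 2) (im (.neg (.bi 0 2 1))
  (.and (.bi 0 0 1) (.bi 0 1 0)))))

/-- the fourth clause -/
def c4 : MS := .ex 0 (.and (.neg (.ex 1 (.and (.bi 0 1 0) (.neg (.bi 0 0 1)))))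
  (.neg (.exS 0 (.and (.mem 0 0) (.and (.neg (.ex 1 (.ex 2 (.and (.mem 1 0) (.and (.bi 0 1 2)
    (.neg (.mem 2 0))))))) (.ex 1 (.neg (.mem 1 0))))))))

/-- one child -/
def c5 : MS := im (.bi 0 0 1) (im (.neg (.bi 0 1 0)) (im (.bi 0 0 2) (im (.neg (.bi 0 2 0))
  (.and (.bi 0 1 2) (.bi 0 2 1)))))

theorem tdb_all {A : Type} [Nonempty A] (Q : A → A → A → Prop) :
    (∀ (e : ℕ → A) (_ : ℕ → Set A), Q (e 0) (e 1) (e 2)) ↔ ∀ x y z, Q x y z := by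
  constructor
  · intro h x y z
    exact h (fun i => if i = 0 then x else if i = 1 then y else z) (fun _ => ∅)
  · intro h e V
    exact h _ _ _

section

variable {A : Type} [Nonempty A] (P : ℕ → A → Prop) (R : ℕ → A → A → Prop)

omit [Nonempty A] in
theorem c1_sat : (∀ (e : ℕ → A) (V : ℕ → Set A), (MS.bi 0 0 0).Sat P R e V) ↔
    ∀ x, R 0 x x := by
  constructor
  · intro h x
    exact h (fun _ => x) (fun _ => ∅)
  · intro h e V
    exact h _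

theorem c2_sat : (∀ (e : ℕ → A) (V : ℕ → Set A), c2.Sat P R e V) ↔
    ∀ x y z, R 0 x y → R 0 y x → ((R 0 x z ↔ R 0 y z) ∧ (R 0 z x ↔ R 0 z y)) := by
  rw [← tdb_all]
  refine forall_congr' fun e => forall_congr' fun V => ?_
  unfold c2
  simp only [im_sat, MS.Sat]
  tauto

theorem c3_sat : (∀ (e : ℕ → A) (V : ℕ → Set A), c3.Sat P R e V) ↔
    ∀ x y z, R 0 x z → ¬ R 0 z x → R 0 y z → ¬ R 0 z y → R 0 x y ∧ R 0 y x := by
  rw [← tdb_all]
  refine forall_congr' fun e => forall_congr' fun V => ?_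
  unfold c3
  simp only [im_sat, MS.Sat]

theorem c5_sat : (∀ (e : ℕ → A) (V : ℕ → Set A), c5.Sat P R e V) ↔ UCh (R 0) := by
  unfold UCh
  rw [← tdb_all]
  refine forall_congr' fun e => forall_congr' fun V => ?_
  unfold c5
  simp only [im_sat, MS.Sat]

theorem c4_sat : (∀ (e : ℕ → A) (V : ℕ → Set A), c4.Sat P R e V) ↔
    ∃ r, (∀ y, R 0 y r → R 0 r y) ∧
    ∀ S : Set A, r ∈ S → (∀ x ∈ S, ∀ y, R 0 x y → y ∈ S) → ∀ y, y ∈ S := by
  have h1 : ∀ (e : ℕ → A) (V : ℕ → Set A), c4.Sat P R e V ↔ ∃ r, (∀ y, R 0 y r → R 0 r y) ∧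
      ∀ S : Set A, r ∈ S → (∀ x ∈ S, ∀ y, R 0 x y → y ∈ S) → ∀ y, y ∈ S := by
    intro e V
    unfold c4
    simp only [MS.Sat]
    refine exists_congr fun r => and_congr ?_ ?_
    · simp [Function.update]
    · simp only [Function.update]
      simp
  constructor
  · intro h
    obtain ⟨a⟩ := ‹Nonempty A›
    exact (h1 (fun _ => a) (fun _ => ∅)).1 (h _ _)
  · intro h e V
    exact (h1 e V).2 h

end

theorem tdb_and {A : Type} (P : ℕ → A → Prop) (R : ℕ → A → A → Prop) (φ ψ : MS) :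
    (∀ (e : ℕ → A) (V : ℕ → Set A), (MS.and φ ψ).Sat P R e V) ↔
      (∀ (e : ℕ → A) (V : ℕ → Set A), φ.Sat P R e V) ∧
      ∀ (e : ℕ → A) (V : ℕ → Set A), ψ.Sat P R e V := by
  constructor
  · intro h
    exact ⟨fun e V => (h e V).1, fun e V => (h e V).2⟩
  · rintro ⟨h1, h2⟩ e V
    exact ⟨h1 e V, h2 e V⟩

theorem tdb_tbx {A : Type} [Nonempty A] (P : ℕ → A → Prop) (R : ℕ → A → A → Prop) :
    (∀ (e : ℕ → A) (V : ℕ → Set A),
      (MS.and (.bi 0 0 0) (.and c2 (.and c3 c4))).Sat P R e V) ↔ TBx (R 0) := by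
  rw [tdb_and, tdb_and, tdb_and, c1_sat, c2_sat, c3_sat, c4_sat]
  rfl

theorem pf_TDB : Pool.Agent.H46.CH.T_TDB := by
  refine ⟨⟨.and (.bi 0 0 0) (.and c2 (.and c3 c4)), ?_, fun A _ P R => tdb_tbx P R⟩,
    ⟨.and (.and (.bi 0 0 0) (.and c2 (.and c3 c4))) c5, ?_, fun A _ P R => ?_⟩⟩
  · simp [MS.Below, c2, c3, c4, im]
  · simp [MS.Below, c2, c3, c4, c5, im]
  · rw [tdb_and, tdb_tbx, c5_sat]

end Pool.Agent.H36.CHD
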