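import Pool.Agent.H46.CH.DL
import Pool.Agent.H33.JS.NU

/-!
# The lower bound for blow-ups of trees, assembled
-/

set_option autoImplicit false

namespace Pool.Agent.H36.CHD

open Classical Pool.Agent.H46.CH
open Pool.Agent.H8.VR (C2)
open Pool.Agent.H8.JS (NTM Cfg Mv IsComp lang num)

theorem pf_TLW (hTCC : T_TCC) (hCD : T_CD) (hTN1 : T_TN1) (hTN2 : T_TN2) (hFBN : T_FBN) :
    Pool.Agent.H46.CH.T_TLW := by
  intro L hL
  obtain ⟨c, M, br, hM⟩ := hL
  obtain ⟨B, cd, hcode⟩ := hCD M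
  obtain ⟨d₂, hd₂⟩ := hTN1 M br c B cd hcode (fun x => (hM x).1)
  obtain ⟨hmono, hbig, hpol⟩ := hFBN
  obtain ⟨d, hd, hfd⟩ := hbig d₂
  obtain ⟨p, hp⟩ := hpol d
  obtain ⟨φ, hφ⟩ := hTCC (Ct M.k d) (tmT M br B cd d)
  refine ⟨φ, p, ?_⟩
  intro x
  have hpos : 0 < 2 * fB d (num x) := by
    unfold fB
    omega
  obtain ⟨y, hy⟩ := Pool.Agent.H33.JS.num_surj _ hpos
  refine ⟨y, ?_, ?_⟩
  · rw [hp, hy]
  · constructor
    · intro hacc
      obtain ⟨z, hz, ht⟩ := (hM x).2.2 hacc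
      show num y ∈ specTB φ
      rw [hφ, hy]
      exact hd₂ d x (hfd _) ⟨z, hz, ht⟩
    · intro hlang
      have h1 : num y ∈ (tmT M br B cd d).Num := by
        rw [← hφ]
        exact hlang
      rw [hy] at h1
      obtain ⟨x', z, hz, h2⟩ := hTN2 M br B cd d _ hcode h1
      have h5 : fB d (num x) = fB d (num x') := by omega
      have h6 : x = x' := Pool.Agent.H33.JS.num_inj x x' ((hmono d hd).injective h5)
      rw [(hM x).2.1, h6]
      exact ⟨z, hz⟩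

end Pool.Agent.H36.CHD
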