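import Pool.Agent.H46.CH.DL

/-!
# The sizes of the trees, to the alternating machine
-/

set_option autoImplicit false

namespace Pool.Agent.H36.CHD

open Classical Pool.Agent.H46.CH
open Pool.Agent.H8.VR (C2)
open Pool.Agent.H8.JS (NTM Cfg Mv IsComp lang num)

/-- trees whose root is a branching instruction -/
theorem tn2_two {J : Type} [Fintype J] (M : BM J) {e : M.I} {v : J → ℕ} {s : Bool → ℕ}
    (h : M.Tre e v s) (ha : M.ar e = true) :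
    ∃ (e₁ : M.I) (v₁ : J → ℕ) (s₁ : Bool → ℕ) (e₂ : M.I) (v₂ : J → ℕ) (s₂ : Bool → ℕ),
      M.nx e e₁ ∧ M.nr e e₂ ∧ M.Rel e v v₁ ∧ M.Rel e v v₂ ∧ M.Tre e₁ v₁ s₁ ∧ M.Tre e₂ v₂ s₂ ∧
      ∀ b, s b = M.own e v b + s₁ b + s₂ b := by
  cases h with
  | fin _ _ _ ha' hf hr hs => exact absurd (ha.symm.trans ha') (by simp)
  | one _ _ e' v' s' _ ha' hn hr ht hs => exact absurd (ha.symm.trans ha') (by simp)
  | two _ _ e₁ v₁ s₁ e₂ v₂ s₂ _ ha hn₁ hn₂ hr₁ hr₂ h₁ h₂ hs =>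
    exact ⟨e₁, v₁, s₁, e₂, v₂, s₂, hn₁, hn₂, hr₁, hr₂, h₁, h₂, hs⟩

/-- trees whose root has the instruction `endl` -/
theorem tn2_endl (M : NTM) (br : M.Q → Option (M.Q × M.Q)) (B : ℕ) (cd : TS M → ℕ) (d : ℕ)
    (v : Ct M.k d → ℕ) (t : Bool → ℕ) (h : (tmT M br B cd d).Tre (.inl .endl) v t) :
    ∃ (e₁ : TI M d) (v₁ : Ct M.k d → ℕ) (s₁ : Bool → ℕ) (e₂ : TI M d) (v₂ : Ct M.k d → ℕ)
      (s₂ : Bool → ℕ), TI.nx br (.inl .endl) e₁ ∧ TI.nr br (.inl .endl) e₂ ∧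
      (tmT M br B cd d).Rel (.inl .endl) v v₁ ∧ (tmT M br B cd d).Rel (.inl .endl) v v₂ ∧
      (tmT M br B cd d).Tre e₁ v₁ s₁ ∧ (tmT M br B cd d).Tre e₂ v₂ s₂ ∧
      t true = s₁ true + s₂ true := by
  obtain ⟨e₁, v₁, s₁, e₂, v₂, s₂, hn₁, hn₂, hr₁, hr₂, h₁, h₂, hs⟩ := tn2_two _ h rfl
  refine ⟨e₁, v₁, s₁, e₂, v₂, s₂, hn₁, hn₂, hr₁, hr₂, h₁, h₂, ?_⟩
  rw [hs true]
  unfold BM.own
  have h3 : ¬ ((tmT M br B cd d).st (.inl .endl) = true) := by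
    change ¬ ((false : Bool) = true)
    simp
  rw [if_neg h3, zero_add]

theorem pf_TN2 (hIR : T_TIR) (hLE : T_LE) (hTLD : T_TLD) (hTCL : T_TCL) (hTA2 : T_TA2)
    (hIR0 : T_IR) (hO1 : T_O1) : Pool.Agent.H46.CH.T_TN2 := by
  intro M br B cd d n hc hn
  obtain ⟨e, s, he, ht, heq, hn⟩ := hn
  have he' : e = .inl .start := he
  subst he'
  obtain ⟨v, s0, t, hp, hte, -, h2⟩ := (hTLD M br B cd d _ _).1 ht
  obtain ⟨e₁, v₁, s₁, e₂, v₂, s₂, hn₁, hn₂, hr₁, hr₂, h₁, h₂, h3⟩ := tn2_endl M br B cd d v t hte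
  have hr₁' := ((hIR M br B cd d v v₁).1 _).1 hr₁
  have hr₂' := ((hIR M br B cd d v v₂).1 _).1 hr₂
  have k1 := ((hIR0 M B cd d v v₁).2.2.1).1 hr₁'
  have k2 := ((hIR0 M B cd d v v₂).2.2.1).1 hr₂'
  have hv : v₂ = v₁ := by
    funext j
    by_cases hP : j = .P
    · rw [hP, k1.1, k2.1]
    · by_cases hN : j = .N
      · rw [hN, k1.2.1, k2.2.1]
      · rw [k1.2.2 j hP hN, k2.2.2 j hP hN]
  subst hv
  obtain ⟨x, hx⟩ := hLE M B cd d hc v v₂ s0 hp hr₁'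
  obtain ⟨⟨z, hz⟩, h4⟩ := hTA2 M br B cd d (num x) hc e₂ v₂ s₂ h₂ _ hx hn₂
  have he₁ : e₁ = .inl .clear := hn₁
  subst he₁
  obtain ⟨w₂, w₃, w₄, w₅, e', s', r1, r2, r3, hne, hp', -, h5⟩ := (hTCL M br B cd d _ _).1 h₁
  have q1 := ((hIR0 M B cd d v₂ w₂).2.2.2.1).1 r1 .N
  rw [if_pos rfl, hx.2.2.1] at q1
  have q2 := (((hIR0 M B cd d w₂ w₃).2.2.2.2.1).1 r2).2 .N (by intro h; cases h)
  have q3 := ((hIR0 M B cd d w₃ w₄).2.2.2.2.2.1).1 r3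
  have hw : ∀ j, w₄ j = match j with
      | .w _ => num x
      | _ => 0 := by
    intro j
    rw [q3 j]
    cases j with
    | w i => exact q2.symm.trans q1
    | _ => rfl
  have h6 := hO1 M B cd d (num x) w₄ w₅ e' s' hw hne hp'
  refine ⟨x, z, hz, ?_⟩
  omega

end Pool.Agent.H36.CHD
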